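import Pool.Agent.Helper729.SAF.C1
import Pool.Agent.Helper729.SAF.C2
import Pool.Agent.Helper729.SAF.C4

/-!
Versions of `Helper729.SAF.C1`, `C2`, `C4` for a geometric rate of convergence (`(1/2)^j` in place
of `(1/2)^(2^j)`).
-/

set_option autoImplicit false

namespace Y712.SAF

open Helper729.SAF

theorem orbit_attracting {ι : Type} (P0 : MvPolynomial (Fin 3) ℂ)
    (R : ι → MvPolynomial (Fin 3) ℂ)
    (h1 : ∀ δ : ℝ, 0 < δ → ∃ q, Near P0 R δ q)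
    (h3 : ∃ (n1 : ℕ) (r : ℝ), 1 ≤ n1 ∧ 0 < r ∧ ∀ q δ, 0 ≤ δ → δ ≤ r → Near P0 R δ q →
      Near P0 R (1 / 2 * δ) (F^[n1] q)) :
    ∃ (n1 : ℕ) (q : ℂ × ℂ × ℂ), 1 ≤ n1 ∧
      ∀ j : ℕ, Near P0 R ((1 / 2 : ℝ) ^ j) (F^[n1 * j] q) := by
  obtain ⟨n1, r, hn1, hr, h⟩ := h3
  set δ0 : ℝ := min r 1 with hδ0
  have hδpos : 0 < δ0 := lt_min hr one_pos
  have hδr : δ0 ≤ r := min_le_left _ _
  obtain ⟨q, hq⟩ := h1 δ0 hδpos
  have key : ∀ j : ℕ, Near P0 R ((1 / 2) ^ j * δ0) (F^[n1 * j] q) := by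
    intro j
    induction j with
    | zero =>
      rw [pow_zero, one_mul, Nat.mul_zero]
      exact hq
    | succ j ih =>
      have h5 : ((1 : ℝ) / 2) ^ j ≤ 1 := pow_le_one₀ (by norm_num) (by norm_num)
      have hle : ((1 : ℝ) / 2) ^ j * δ0 ≤ r :=
        (mul_le_of_le_one_left hδpos.le h5).trans hδr
      have h6 := h _ _ (by positivity) hle ih
      have e : F^[n1 * (j + 1)] q = F^[n1] (F^[n1 * j] q) := by
        rw [← Function.iterate_add_apply, Nat.mul_succ, Nat.add_comm]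
      rw [e]
      refine C1.near_mono_aux P0 R (le_of_eq ?_) h6
      ring
  refine ⟨n1, q, hn1, fun j => C1.near_mono_aux P0 R ?_ (key j)⟩
  exact mul_le_of_le_one_right (by positivity) (min_le_right _ _)

theorem degree_lt (P0 R : MvPolynomial (Fin 3) ℂ) (n0 m0 mR : ℕ) (κ0 κR : Polynomial ℂ)
    (h0 : PureAn P0 n0 m0 κ0) (hR : PureAn R n0 mR κR)
    (n1 : ℕ) (hn1 : 1 ≤ n1) (q : ℂ × ℂ × ℂ)
    (hq : ∀ j : ℕ, evq P0 (F^[n1 * j] q) ≠ 0 ∧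
      ‖evq R (F^[n1 * j] q)‖ ≤ (1 / 2 : ℝ) ^ j * ‖evq P0 (F^[n1 * j] q)‖)
    (n : ℕ)
    (hesc : ∀ m : ℕ, ‖(F^[n + m] q).1‖ ≤ ‖(F^[n + m] q).2.1‖ ∧ 3 * 2 ^ m ≤ ‖(F^[n + m] q).2.1‖)
    (hz : ∀ m : ℕ, (F^[m] q).2.2 = q.2.2 + m) :
    mR < m0 := by
  by_contra hcon
  have hle : m0 ≤ mR := not_lt.mp hcon
  obtain ⟨-, C0, D0, hC0, hP⟩ := h0
  obtain ⟨hκR, CR, DR, hCR, hRR⟩ := hR
  obtain ⟨K, D, hK, hκ0⟩ := C4.dl_poly_bound κ0
  obtain ⟨a, ha, hlow⟩ := C4.dl_poly_low κR hκR q.2.2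
  obtain ⟨c, hc⟩ := exists_nat_ge (1 + ‖q.2.2‖)
  have hzb : ∀ m : ℕ, 1 + ‖(F^[m] q).2.2‖ ≤ c + m := by
    intro m
    rw [hz]
    have := norm_add_le q.2.2 (m : ℂ)
    rw [Complex.norm_natCast] at this
    linarith
  have hE2 := (C4.dl_lim c 1 DR (CR * 2 ^ n)).eventually (gt_mem_nhds (half_pos ha))
  have hE3 := (C4.dl_lim c n1 D K).eventually (gt_mem_nhds (show (0:ℝ) < a / 4 by linarith))
  have hE4 := (C4.dl_lim c n1 D0 C0).eventually (gt_mem_nhds (show (0:ℝ) < a / 4 by linarith))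
  obtain ⟨N1, hN1⟩ := Filter.eventually_atTop.mp (hlow.and hE2)
  obtain ⟨N2, hN2⟩ := Filter.eventually_atTop.mp (hE3.and hE4)
  set j := N1 + N2 + n + n0 with hj
  have hM : ∃ M, n1 * j = n0 + M ∧ N1 ≤ M ∧ n ≤ M ∧ M ≤ n1 * j := by
    refine ⟨n1 * j - n0, ?_, ?_, ?_, ?_⟩ <;>
    · have : j ≤ n1 * j := Nat.le_mul_of_pos_left _ hn1
      omega
  obtain ⟨M, hM1, hM2, hM3, hM4⟩ := hM
  obtain ⟨hlowM, hE2M⟩ := hN1 M hM2
  obtain ⟨hE3j, hE4j⟩ := hN2 j (by omega)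
  obtain ⟨m, rfl⟩ := Nat.exists_eq_add_of_le hM3
  obtain ⟨hxy, hy⟩ := hesc m
  have hq1 := (hq j).2
  rw [hM1, Function.iterate_add_apply] at hq1
  have hzM := hzb (n + m)
  have hzz := hz (n + m)
  set p := F^[n + m] q with hp
  obtain ⟨x, y, z⟩ := p
  simp only at hxy hy hzM hzz
  have hy1 : 1 ≤ ‖y‖ := by
    have : (1:ℝ) ≤ 2 ^ m := one_le_pow₀ (by norm_num)
    linarith
  have hy0 : 0 < ‖y‖ := by linarith
  have hP1 := hP x y z hxy hy1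
  have hR1 := hRR x y z hxy hy1
  have hκ0z := hκ0 z
  rw [← hzz] at hlowM
  set eP := evq P0 (F^[n0] (x, y, z)) with heP
  set eR := evq R (F^[n0] (x, y, z)) with heR
  have hYm : 0 < ‖y‖ ^ mR := by positivity
  -- upper bound for P0
  have hcM : (1 + ‖z‖) ≤ (c : ℝ) + n1 * j := by
    refine hzM.trans ?_
    have : ((n + m : ℕ) : ℝ) ≤ (n1 * j : ℕ) := by exact_mod_cast hM4
    push_cast at this ⊢
    linarith
  have hz0 : 0 ≤ 1 + ‖z‖ := by positivity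
  have hPup : ‖eP‖ ≤ (K * ((c : ℝ) + n1 * j) ^ D + C0 * ((c : ℝ) + n1 * j) ^ D0) * ‖y‖ ^ mR := by
    have h2 : ‖eP - κ0.eval z * y ^ m0‖ ≤ C0 * (1 + ‖z‖) ^ D0 * ‖y‖ ^ m0 := by
      refine le_trans ?_ hP1
      exact le_mul_of_one_le_right (norm_nonneg _) hy1
    have h3 : ‖eP‖ ≤ ‖κ0.eval z * y ^ m0‖ + ‖eP - κ0.eval z * y ^ m0‖ := by
      have := norm_add_le (κ0.eval z * y ^ m0) (eP - κ0.eval z * y ^ m0)
      simpa using this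
    rw [norm_mul, norm_pow] at h3
    have h4 : ‖y‖ ^ m0 ≤ ‖y‖ ^ mR := pow_le_pow_right₀ hy1 hle
    have h5 : (1 + ‖z‖) ^ D0 ≤ ((c : ℝ) + n1 * j) ^ D0 := pow_le_pow_left₀ hz0 hcM _
    have h6 : (1 + ‖z‖) ^ D ≤ ((c : ℝ) + n1 * j) ^ D := pow_le_pow_left₀ hz0 hcM _
    calc ‖eP‖ ≤ ‖κ0.eval z‖ * ‖y‖ ^ m0 + C0 * (1 + ‖z‖) ^ D0 * ‖y‖ ^ m0 := by linarith
      _ ≤ (K * ((c : ℝ) + n1 * j) ^ D) * ‖y‖ ^ mR + (C0 * ((c : ℝ) + n1 * j) ^ D0) * ‖y‖ ^ mR := by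
          have h7 : ‖κ0.eval z‖ ≤ K * ((c : ℝ) + n1 * j) ^ D :=
            hκ0z.trans (by gcongr)
          gcongr
      _ = _ := by ring
  -- lower bound for R
  have hRlow : (a / 2) * ‖y‖ ^ mR ≤ ‖eR‖ := by
    have h2 : ‖κR.eval z * y ^ mR‖ ≤ ‖eR‖ + ‖eR - κR.eval z * y ^ mR‖ := by
      have := norm_sub_le eR (eR - κR.eval z * y ^ mR)
      simpa using this
    rw [norm_mul, norm_pow] at h2
    have h3 : ‖eR - κR.eval z * y ^ mR‖ ≤ (a / 2) * ‖y‖ ^ mR := by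
      have h4 : ‖eR - κR.eval z * y ^ mR‖ * ‖y‖ ≤ ((a / 2) * ‖y‖ ^ mR) * ‖y‖ := by
        refine hR1.trans ?_
        have h5 : CR * (1 + ‖z‖) ^ DR ≤ a / 2 * ‖y‖ := by
          have h6 : (1 + ‖z‖) ^ DR ≤ ((c : ℝ) + (1 : ℕ) * ((n + m : ℕ) : ℝ)) ^ DR := by
            refine pow_le_pow_left₀ hz0 ?_ _
            simpa using hzM
          have h7 : CR * 2 ^ n * ((c : ℝ) + (1 : ℕ) * ((n + m : ℕ) : ℝ)) ^ DR *
              (1 / 2 : ℝ) ^ (n + m) < a / 2 := hE2M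
          have h8 : CR * 2 ^ n * ((c : ℝ) + (1 : ℕ) * ((n + m : ℕ) : ℝ)) ^ DR *
              (1 / 2 : ℝ) ^ (n + m) * 2 ^ m =
              CR * ((c : ℝ) + (1 : ℕ) * ((n + m : ℕ) : ℝ)) ^ DR := by
            rw [pow_add, one_div, inv_pow, inv_pow]
            field_simp
          have h9 : (0:ℝ) < 2 ^ m := by positivity
          have h10 := mul_lt_mul_of_pos_right h7 h9
          rw [h8] at h10
          have h11 : a / 2 * (2:ℝ) ^ m ≤ a / 2 * ‖y‖ := by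
            refine mul_le_mul_of_nonneg_left ?_ (by linarith)
            linarith
          have h12 : CR * (1 + ‖z‖) ^ DR ≤ CR * ((c : ℝ) + (1 : ℕ) * ((n + m : ℕ) : ℝ)) ^ DR :=
            mul_le_mul_of_nonneg_left h6 hCR.le
          exact (h12.trans_lt (h10.trans_le h11)).le
        calc CR * (1 + ‖z‖) ^ DR * ‖y‖ ^ mR ≤ (a / 2 * ‖y‖) * ‖y‖ ^ mR :=
              mul_le_mul_of_nonneg_right h5 hYm.le
          _ = _ := by ring
      exact le_of_mul_le_mul_right h4 hy0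
    have h5 : a * ‖y‖ ^ mR ≤ ‖κR.eval z‖ * ‖y‖ ^ mR := mul_le_mul_of_nonneg_right hlowM hYm.le
    linarith
  have hpow : (1 / 2 : ℝ) ^ j ≤ (1 / 2 : ℝ) ^ j := le_rfl
  have hfin : (a / 2) * ‖y‖ ^ mR ≤ ((1 / 2 : ℝ) ^ j *
      (K * ((c : ℝ) + n1 * j) ^ D + C0 * ((c : ℝ) + n1 * j) ^ D0)) * ‖y‖ ^ mR := by
    calc (a / 2) * ‖y‖ ^ mR ≤ ‖eR‖ := hRlow
      _ ≤ (1 / 2 : ℝ) ^ j * ‖eP‖ := hq1
      _ ≤ (1 / 2 : ℝ) ^ j * ((K * ((c : ℝ) + n1 * j) ^ D + C0 * ((c : ℝ) + n1 * j) ^ D0) *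
            ‖y‖ ^ mR) := mul_le_mul hpow hPup (norm_nonneg _) (by positivity)
      _ = _ := by ring
  have hfin2 := le_of_mul_le_mul_right hfin hYm
  have hE3j' : K * ((c : ℝ) + n1 * j) ^ D * (1 / 2 : ℝ) ^ j < a / 4 := hE3j
  have hE4j' : C0 * ((c : ℝ) + n1 * j) ^ D0 * (1 / 2 : ℝ) ^ j < a / 4 := hE4j
  nlinarith

theorem orbit_enters {ι : Type} [Fintype ι] (P0 : MvPolynomial (Fin 3) ℂ)
    (R Q : ι → MvPolynomial (Fin 3) ℂ) (hQ : ∑ i, Q i * R i = 1)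
    (growth : ∀ P : MvPolynomial (Fin 3) ℂ, ∃ (C : ℝ) (D : ℕ), 0 < C ∧ ∀ q : ℂ × ℂ × ℂ,
      ‖evq P q‖ ≤ C * (1 + ‖q.1‖ + ‖q.2.1‖ + ‖q.2.2‖) ^ D)
    (n1 : ℕ) (hn1 : 1 ≤ n1) (q : ℂ × ℂ × ℂ)
    (hq : ∀ j : ℕ, Near P0 R ((1 / 2 : ℝ) ^ j) (F^[n1 * j] q)) (n' : ℕ) :
    ∃ n : ℕ, n' ≤ n ∧ ‖(F^[n] q).1‖ ≤ ‖(F^[n] q).2.1‖ ∧ 3 ≤ ‖(F^[n] q).2.1‖ := by
  by_contra hcon
  push Not at hcon
  have hy : ∀ n, n' ≤ n → ‖(F^[n] q).2.1‖ ≤ max ‖(F^[n] q).1‖ 3 := by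
    intro n hn
    by_cases h : ‖(F^[n] q).1‖ ≤ ‖(F^[n] q).2.1‖
    · exact (hcon n hn h).le.trans (le_max_right _ _)
    · push Not at h
      exact h.le.trans (le_max_left _ _)
  set B : ℝ := max ‖(F^[n'] q).1‖ 3 with hB
  have hx : ∀ n, n' ≤ n → ‖(F^[n] q).1‖ ≤ B := by
    intro n hn
    induction n, hn using Nat.le_induction with
    | base => exact le_max_left _ _
    | succ n hn ih =>
      rw [C2.F_iter_x]
      exact (hy n hn).trans (max_le ih (le_max_right _ _))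
  have hyB : ∀ n, n' ≤ n → ‖(F^[n] q).2.1‖ ≤ B := fun n hn =>
    (hy n hn).trans (max_le (hx n hn) (le_max_right _ _))
  have hB3 : 3 ≤ B := le_max_right _ _
  choose C D hC hCD using fun i => growth (P0 * Q i)
  set a : ℝ := 1 + 2 * B + ‖q.2.2‖ with ha
  have ha1 : 1 ≤ a := by
    have := norm_nonneg q.2.2
    rw [ha]; linarith
  set K : ℝ := ∑ i, C i with hK
  set DD : ℕ := ∑ i, D i with hDD
  have key : ∀ j : ℕ, n' ≤ j → 1 ≤ j → 1 ≤ K * (a + n1) ^ DD * ((j : ℝ) ^ DD * (1 / 2 : ℝ) ^ j) := by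
    intro j hj hj1
    have hn : n' ≤ n1 * j := hj.trans (by nlinarith)
    set p := F^[n1 * j] q with hp
    obtain ⟨_, hnear⟩ := hq j
    have h1 : (1 : ℂ) = ∑ i, evq (Q i) p * evq (R i) p := by
      have := congrArg (fun P => evq P p) hQ
      simp only [evq, map_sum, map_mul, map_one] at this
      exact this.symm
    have hX : 1 + ‖p.1‖ + ‖p.2.1‖ + ‖p.2.2‖ ≤ a + n1 * j := by
      have h2 : ‖p.2.2‖ ≤ ‖q.2.2‖ + (n1 * j : ℝ) := by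
        rw [hp, C2.F_iter_zc]
        refine (norm_add_le _ _).trans ?_
        rw [Complex.norm_natCast]
        push_cast
        exact le_rfl
      have h3 := hx _ hn
      have h4 := hyB _ hn
      rw [← hp] at h3 h4
      rw [ha]; linarith
    have hX0 : 0 ≤ 1 + ‖p.1‖ + ‖p.2.1‖ + ‖p.2.2‖ := by positivity
    have hjR : (1 : ℝ) ≤ j := by exact_mod_cast hj1
    have hn1R : (1 : ℝ) ≤ n1 := by exact_mod_cast hn1
    have hX2 : a + n1 * j ≤ (a + n1) * j := by nlinarith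
    have hY1 : 1 ≤ (a + n1) * j := by nlinarith
    have hterm : ∀ i, ‖evq (Q i) p * evq (R i) p‖ ≤
        C i * (((a + n1) * j) ^ DD * (1 / 2 : ℝ) ^ j) := by
      intro i
      have e1 : ‖evq (Q i) p * evq (R i) p‖ ≤ ‖evq (P0 * Q i) p‖ * (1 / 2 : ℝ) ^ j := by
        have e2 : evq (P0 * Q i) p = evq P0 p * evq (Q i) p := by simp [evq]
        rw [e2, norm_mul, norm_mul]
        have := mul_le_mul_of_nonneg_left (hnear i) (norm_nonneg (evq (Q i) p))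
        calc _ ≤ _ := this
          _ = _ := by ring
      have e3 : (1 / 2 : ℝ) ^ j ≤ (1 / 2 : ℝ) ^ j := le_rfl
      have e4 : ‖evq (P0 * Q i) p‖ ≤ C i * ((a + n1) * j) ^ DD := by
        refine (hCD i p).trans ?_
        refine mul_le_mul_of_nonneg_left ?_ (hC i).le
        calc (1 + ‖p.1‖ + ‖p.2.1‖ + ‖p.2.2‖) ^ D i ≤ ((a + n1) * j) ^ D i :=
              pow_le_pow_left₀ hX0 (hX.trans hX2) _
          _ ≤ ((a + n1) * j) ^ DD :=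
              pow_le_pow_right₀ hY1 (Finset.single_le_sum (fun _ _ => Nat.zero_le _) (Finset.mem_univ i))
      calc _ ≤ _ := e1
        _ ≤ (C i * ((a + n1) * j) ^ DD) * (1 / 2 : ℝ) ^ j :=
            mul_le_mul e4 e3 (by positivity) (mul_nonneg (hC i).le (by positivity))
        _ = _ := by ring
    calc (1 : ℝ) = ‖(1 : ℂ)‖ := by simp
      _ = ‖∑ i, evq (Q i) p * evq (R i) p‖ := by rw [← h1]
      _ ≤ ∑ i, ‖evq (Q i) p * evq (R i) p‖ := norm_sum_le _ _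
      _ ≤ ∑ i, C i * (((a + n1) * j) ^ DD * (1 / 2 : ℝ) ^ j) := Finset.sum_le_sum (fun i _ => hterm i)
      _ = K * (a + n1) ^ DD * ((j : ℝ) ^ DD * (1 / 2 : ℝ) ^ j) := by
        rw [← Finset.sum_mul, mul_pow]; ring
  have hlim : Filter.Tendsto (fun j : ℕ => K * (a + n1) ^ DD * ((j : ℝ) ^ DD * (1 / 2 : ℝ) ^ j))
      Filter.atTop (nhds 0) := by
    have := tendsto_pow_const_mul_const_pow_of_abs_lt_one DD (r := (1 / 2 : ℝ)) (by
      rw [abs_of_pos (by norm_num)]; norm_num)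
    simpa using this.const_mul (K * (a + n1) ^ DD)
  have hev := (hlim.eventually (gt_mem_nhds (show (0 : ℝ) < 1 by norm_num))).and
    (Filter.eventually_ge_atTop (max n' 1))
  obtain ⟨j, hj1, hj2⟩ := hev.exists
  exact absurd (key j ((le_max_left _ _).trans hj2) ((le_max_right _ _).trans hj2)) (not_le.mpr hj1)

end Y712.SAF
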