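import Pool.Agent.Helper729.SAF.Core
import Pool.Agent.Helper729.SAF.Purity
import Pool.Agent.Y712.SAF.Geo

set_option autoImplicit false

namespace Y712.SAF

open Helper729.SAF

/-- continuity at the point of all the iterates of `F^p` -/
theorem near_iterate_iterate {ι : Type} {P0 : MvPolynomial (Fin 3) ℂ}
    {R : ι → MvPolynomial (Fin 3) ℂ} (p : ℕ)
    (h2 : ∀ ε : ℝ, 0 < ε → ∃ δ : ℝ, 0 < δ ∧ ∀ q, Near P0 R δ q → Near P0 R ε (F^[p] q))
    (T : ℕ) : ∀ ε : ℝ, 0 < ε → ∃ δ : ℝ, 0 < δ ∧ ∀ q, Near P0 R δ q →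
      Near P0 R ε ((F^[p])^[T] q) := by
  induction T with
  | zero => intro ε hε; exact ⟨ε, hε, fun q hq => hq⟩
  | succ T ih =>
    intro ε hε
    obtain ⟨δ1, hδ1, h1⟩ := h2 ε hε
    obtain ⟨δ, hδ, h⟩ := ih δ1 hδ1
    refine ⟨δ, hδ, fun q hq => ?_⟩
    rw [Function.iterate_succ_apply']
    exact h1 _ (h q hq)

/-- The core theorem for the iterate `F^p`: if `F^p` is continuous at a fixed point at infinity,
then no orbit converges geometrically to this point (adapted from `Helper729.SAF.core_of_purity`,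
the super-attracting case with `p = 1`). -/
theorem core_orbit (p : ℕ) (hp : 1 ≤ p)
    {ι : Type} [Fintype ι] (P0 : MvPolynomial (Fin 3) ℂ)
    (R : ι → MvPolynomial (Fin 3) ℂ)
    (hR : ∀ q : ℂ × ℂ × ℂ, ∃ i, evq (R i) q ≠ 0)
    (h1 : ∀ δ : ℝ, 0 < δ → ∃ q, Near P0 R δ q)
    (h2 : ∀ ε : ℝ, 0 < ε → ∃ δ : ℝ, 0 < δ ∧ ∀ q, Near P0 R δ q → Near P0 R ε (F^[p] q))
    (h3 : ∃ (n1 : ℕ) (q : ℂ × ℂ × ℂ), 1 ≤ n1 ∧
      ∀ j : ℕ, Near P0 R ((1 / 2 : ℝ) ^ j) (F^[n1 * j] q)) : False := by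
  classical
  obtain ⟨Q, hQ⟩ := B1.nullst R hR
  have hP0 : P0 ≠ 0 := by
    obtain ⟨q, hq⟩ := h1 1 one_pos
    rintro rfl
    exact hq.1 (by simp [evq])
  set n0 : ℕ := P0.degreeOf 0 + ∑ i, (R i).degreeOf 0 with hn0
  obtain ⟨m0, κ0, hp0⟩ := purity P0 hP0 n0 (by omega)
  obtain ⟨n1, q, hn1, hq⟩ := h3
  have hz : ∀ m : ℕ, (F^[m] q).2.2 = q.2.2 + m := fun m => C2.F_iter_zc q m
  obtain ⟨n', hn'⟩ := exists_nat_gt (‖q.2.2‖ + 1)
  obtain ⟨n, hnn', hen1, hen2⟩ := orbit_enters P0 R Q hQ B2.evq_growth n1 hn1 q hq n'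
  have hesc : ∀ m : ℕ, ‖(F^[n + m] q).1‖ ≤ ‖(F^[n + m] q).2.1‖ ∧
      3 * 2 ^ m ≤ ‖(F^[n + m] q).2.1‖ := by
    intro m
    have hzz : ∀ j : ℕ, 1 ≤ ‖(F^[n] q).2.2 + j‖ := by
      intro j
      rw [hz n]
      have e : (q.2.2 + (n : ℂ) + (j : ℂ)) = ((n + j : ℕ) : ℂ) - (-q.2.2) := by push_cast; ring
      rw [e]
      have h4 := norm_sub_norm_le ((n + j : ℕ) : ℂ) (-q.2.2)
      rw [norm_neg, Complex.norm_natCast] at h4
      have h5 : (n' : ℝ) ≤ ((n + j : ℕ) : ℝ) := by exact_mod_cast (by omega)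
      linarith
    have := C3.escape_growth (F^[n] q).1 (F^[n] q).2.1 (F^[n] q).2.2 hen1 hen2 hzz m
    have e : F^[n + m] q = F^[m] ((F^[n] q).1, (F^[n] q).2.1, (F^[n] q).2.2) := by
      rw [add_comm, Function.iterate_add_apply]
    rw [e]
    exact ⟨this.1, this.2.1⟩
  have hRp : ∀ i, R i = 0 ∨ ∃ (mi : ℕ) (κi : Polynomial ℂ), mi < m0 ∧ PureAn (R i) n0 mi κi := by
    intro i
    by_cases hi : R i = 0
    · exact Or.inl hi
    · right
      have hle : (R i).degreeOf 0 ≤ n0 := by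
        have := Finset.single_le_sum (f := fun i => (R i).degreeOf 0)
          (fun _ _ => Nat.zero_le _) (Finset.mem_univ i)
        omega
      obtain ⟨mi, κi, hpi⟩ := purity (R i) hi n0 hle
      exact ⟨mi, κi, degree_lt P0 (R i) n0 m0 mi κ0 κi hp0 hpi n1 hn1 q
        (fun j => ⟨(hq j).1, (hq j).2 i⟩) n hesc hz, hpi⟩
  -- the transfer constant E and the hitting lemma
  obtain ⟨E, hE⟩ := F2.transfer P0 R Q hQ B2.evq_growth B2.evq_lipschitz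
  obtain ⟨k0, hk0⟩ := E5.hitting toolbox n0 E
  have hκ0 : κ0 ≠ 0 := hp0.1
  obtain ⟨K1, hK1⟩ := exists_large_nonroot κ0 hκ0 1 (by simp) n0 (max k0 n0)
  set k : ℕ := K1 with hk
  have hkk := hK1 k le_rfl
  obtain ⟨K2, hK2⟩ := exists_large_nonroot κ0 hκ0 (-1) (by simp) 0 n0
  obtain ⟨N, hK2N, hNp⟩ : ∃ N : ℕ, K2 ≤ N ∧ N + k - n0 = p * (K2 + k) := by
    have h5 : K2 + k ≤ p * (K2 + k) := Nat.le_mul_of_pos_left _ hp
    exact ⟨n0 + p * (K2 + k) - k, by omega, by omega⟩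
  have hNN := hK2 N hK2N
  -- domination at the fibres -N and k - n0
  obtain ⟨Ca, Ra, hCa, hRa, hda⟩ := D1.dominate_fibre P0 R n0 m0 κ0 hp0 hRp
    (-(N : ℂ)) (fun s hs => by have := hNN.2 s hs; simpa using this)
  obtain ⟨Cb, Rb, hCb, hRb, hdb⟩ := D1.dominate_fibre P0 R n0 m0 κ0 hp0 hRp
    ((k : ℂ) - (n0 : ℂ)) (fun s hs => by have := hkk.2 s hs; simpa using this)
  obtain ⟨q0, hq0⟩ := F1.final_fibre P0 R (k : ℂ) (by
    intro ε hε
    obtain ⟨M2, δ, hδ, htr⟩ := hE k ε hε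
    have hNn : n0 ≤ N := hNN.1
    obtain ⟨δ', hδ', hit⟩ := near_iterate_iterate p h2 (K2 + k) δ hδ
    rw [← Function.iterate_mul, ← hNp] at hit
    obtain ⟨M1, hM1, hhit⟩ := hk0 k (le_trans (le_max_left _ _) hkk.1) N
      (max (max Ra Rb) (max (Ca / δ') (Cb / ε)))
    refine ⟨max M1 M2, fun ξ η hM => ?_⟩
    have hMM1 : M1 ≤ max ‖ξ‖ ‖η‖ := (le_max_left _ _).trans hM
    have hMM2 : M2 ≤ max ‖ξ‖ ‖η‖ := (le_max_right _ _).trans hM
    rcases hhit ξ η hMM1 with ⟨hA1, hA2⟩ | ⟨s, y, hs1, hs2, hy, hF⟩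
    · -- case A
      set g := G^[n0] (ξ, η, (k : ℂ)) with hg
      have hgz : g.2.2 = (k : ℂ) - n0 := by
        have := B3.G_third n0 ξ η (k : ℂ)
        rw [hg]; exact this
      have hFg : F^[n0] (g.1, g.2.1, (k : ℂ) - n0 + 0) = (ξ, η, (k : ℂ)) := by
        have := (E3.G_F_inverse n0 (ξ, η, (k : ℂ))).1
        rw [← hg] at this
        rw [add_zero, ← hgz]
        exact this
      have hgR : Rb ≤ ‖g.2.1‖ := by
        refine le_trans ?_ hA2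
        exact le_trans (le_max_right _ _) (le_max_left _ _)
      have hnear := hdb g.1 g.2.1 0 (by simp) hA1 hgR
      rw [hFg] at hnear
      have hgpos : 0 < ‖g.2.1‖ := lt_of_lt_of_le one_pos (hRb.trans hgR)
      have hle : Cb / ‖g.2.1‖ ≤ ε := by
        have : Cb / ε ≤ ‖g.2.1‖ := le_trans (le_trans (le_max_right _ _) (le_max_right _ _)) hA2
        rw [div_le_iff₀ hgpos]
        rw [div_le_iff₀ hε] at this
        linarith
      exact near_mono hle hnear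
    · -- case B
      have hyR : Ra ≤ ‖y‖ := le_trans (le_trans (le_max_left _ _) (le_max_left _ _)) hy
      have hypos : 0 < ‖y‖ := lt_of_lt_of_le one_pos (hRa.trans hyR)
      have hnear := hda 0 y s hs2 (by simp) hyR
      have hle : Ca / ‖y‖ ≤ δ' := by
        have : Ca / δ' ≤ ‖y‖ := le_trans (le_trans (le_max_left _ _) (le_max_right _ _)) hy
        rw [div_le_iff₀ hypos]
        rw [div_le_iff₀ hδ'] at this
        linarith
      have hnear2 := hit _ (near_mono hle hnear)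
      rw [← Function.iterate_add_apply] at hnear2
      have he : N + k - n0 + n0 = N + k := by omega
      rw [he, hF] at hnear2
      exact htr ξ η s hMM2 hs1 hs2 hnear2)
  obtain ⟨i, hi⟩ := hR q0
  exact hi (hq0 i)

/-- the case of an attracting fixed point -/
theorem core_iterate (p : ℕ) (hp : 1 ≤ p)
    {ι : Type} [Fintype ι] (P0 : MvPolynomial (Fin 3) ℂ)
    (R : ι → MvPolynomial (Fin 3) ℂ)
    (hR : ∀ q : ℂ × ℂ × ℂ, ∃ i, evq (R i) q ≠ 0)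
    (h1 : ∀ δ : ℝ, 0 < δ → ∃ q, Near P0 R δ q)
    (h2 : ∀ ε : ℝ, 0 < ε → ∃ δ : ℝ, 0 < δ ∧ ∀ q, Near P0 R δ q → Near P0 R ε (F^[p] q))
    (h3 : ∃ (n1 : ℕ) (r : ℝ), 1 ≤ n1 ∧ 0 < r ∧ ∀ q δ, 0 ≤ δ → δ ≤ r → Near P0 R δ q →
      Near P0 R (1 / 2 * δ) (F^[n1] q)) : False :=
  core_orbit p hp P0 R hR h1 h2 (orbit_attracting P0 R h1 h3)

end Y712.SAF
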