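import Pool.Agent.Helper729.SAFDefs

/-!
Attracting fixed points at infinity and powers of a polynomial automorphism.
-/

set_option autoImplicit false

open MvPolynomial Filter Topology

namespace Y712.SAF

open SuperAttracting SuperAttracting.ProjCompactification

/-- `[v]` is an attracting fixed point of the birational self-map of `X` induced by `f`.
In an affine chart `i` containing `[v]`, with `a` the image of `[v]`: there is a map `Φ`,
holomorphic in a neighbourhood of `a` in the ambient space, with `Φ a = a`, which extends `f`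
from the points of `ℂ³` near `[v]` (`f` maps such points into the chart `i` and acts on them
by `Φ`), and the powers of the differential of `Φ` at `a` tend to `0` on the Zariski tangent space
of `X` (equivalently, the eigenvalues of the differential of `f` at `[v]` have modulus `< 1`). -/
def IsAttracting {N : ℕ} (X : ProjCompactification N) (f : PolyMap) (v : Fin (N + 1) → ℂ) : Prop :=
  ∃ (i : Fin (N + 1)) (Φ : (Fin (N + 1) → ℂ) → (Fin (N + 1) → ℂ)),
    v i ≠ 0 ∧ AnalyticAt ℂ Φ (chart i v) ∧ Φ (chart i v) = chart i v ∧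
    (∀ᶠ w in 𝓝 (chart i v), ∀ q : Fin 3 → ℂ, eval q (X.P i) ≠ 0 → chart i (X.lift q) = w →
      eval (ap f q) (X.P i) ≠ 0 ∧ chart i (X.lift (ap f q)) = Φ w) ∧
    ∀ τ ∈ X.tangentSpace i (chart i v),
      Tendsto (fun m : ℕ => (fderiv ℂ Φ (chart i v))^[m] τ) atTop (𝓝 0)

/-- `[v]` is a fixed point of (the birational self-map of `X` induced by) `f` at which `f` is
continuous, and there is a point `q` of `ℂ³` whose orbit `q, f q, f² q, …` converges to `[v]` at a
geometric rate.  Here distances are measured in an affine chart `i` containing `[v]`, and continuity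
of `f` at `[v]` with `f [v] = [v]` means: for every `ε > 0` there is `δ > 0` such that `f` maps the
points of `ℂ³` at distance `≤ δ` from `[v]` to points at distance `≤ ε` from `[v]`. -/
def AttractsAnOrbit {N : ℕ} (X : ProjCompactification N) (f : PolyMap)
    (v : Fin (N + 1) → ℂ) : Prop :=
  ∃ i : Fin (N + 1), v i ≠ 0 ∧
    (∀ ε : ℝ, 0 < ε → ∃ δ : ℝ, 0 < δ ∧ ∀ q : Fin 3 → ℂ, eval q (X.P i) ≠ 0 →
      ‖chart i (X.lift q) - chart i v‖ ≤ δ →
        eval (ap f q) (X.P i) ≠ 0 ∧ ‖chart i (X.lift (ap f q)) - chart i v‖ ≤ ε) ∧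
    ∃ (q : Fin 3 → ℂ) (C ρ : ℝ), 0 ≤ ρ ∧ ρ < 1 ∧ ∀ n : ℕ,
      eval ((ap f)^[n] q) (X.P i) ≠ 0 ∧
        ‖chart i (X.lift ((ap f)^[n] q)) - chart i v‖ ≤ C * ρ ^ n

/-- a super-attracting fixed point is attracting -/
theorem isAttracting_of_superAttracting {N : ℕ} {X : ProjCompactification N} {f : PolyMap}
    {v : Fin (N + 1) → ℂ} (h : X.IsSuperAttracting f v) : IsAttracting X f v := by
  obtain ⟨i, Φ, hvi, han, hfix, hev, m, hm⟩ := h
  refine ⟨i, Φ, hvi, han, hfix, hev, fun τ hτ => ?_⟩
  refine tendsto_const_nhds.congr' ?_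
  filter_upwards [eventually_ge_atTop m] with k hk
  obtain ⟨d, rfl⟩ := Nat.exists_eq_add_of_le hk
  rw [Nat.add_comm m d, Function.iterate_add_apply, hm τ hτ]
  exact (Function.iterate_fixed (map_zero _) d).symm

end Y712.SAF
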