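import Pool.Agent.Y712.SAF.MainP

set_option autoImplicit false

open MvPolynomial Filter Topology

namespace Y712.SAF

open Helper729.SAF
open SuperAttracting SuperAttracting.ProjCompactification

/-- the affine involution `(x, y, z) ↦ (-y, -x, 1 - z)` of `ℂ³` -/
noncomputable def sg : PolyMap := ![-X 1, -X 0, 1 - X 2]

theorem sg_sg (q : Fin 3 → ℂ) : ap sg (ap sg q) = q := by
  ext i
  fin_cases i <;> simp [ap, sg]

theorem sg_fmap (q : Fin 3 → ℂ) : ap sg (ap T3.fmap q) = ap T3.finvmap (ap sg q) := by
  ext i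
  fin_cases i <;> simp [ap, sg, T3.fmap, T3.finvmap]
  ring

theorem sg_iter (n : ℕ) (q : Fin 3 → ℂ) :
    ap sg (ap (iter T3.fmap n) q) = ap (iter T3.finvmap n) (ap sg q) := by
  rw [ap_iter, ap_iter]
  induction n with
  | zero => rfl
  | succ n ih => rw [Function.iterate_succ_apply', sg_fmap, ih, Function.iterate_succ_apply']

/-- the compactification `ι ∘ σ` -/
noncomputable def pull {N : ℕ} (X : ProjCompactification N) : ProjCompactification N where
  P := fun i => bind₁ sg (X.P i)
  base_point_free := by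
    intro q
    obtain ⟨i, hi⟩ := X.base_point_free (ap sg q)
    exact ⟨i, by rw [eval_bind]; exact hi⟩
  injective := by
    intro q q' c h
    have h1 : ap sg q = ap sg q' := by
      refine X.injective (ap sg q) (ap sg q') c ?_
      intro i
      have := h i
      rw [eval_bind, eval_bind] at this
      exact this
    rw [← sg_sg q, h1, sg_sg]

theorem pull_eval {N : ℕ} (X : ProjCompactification N) (i : Fin (N + 1)) (q : Fin 3 → ℂ) :
    eval q ((pull X).P i) = eval (ap sg q) (X.P i) := eval_bind _ _ _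

theorem pull_lift {N : ℕ} (X : ProjCompactification N) (q : Fin 3 → ℂ) :
    (pull X).lift q = X.lift (ap sg q) := by
  funext i
  exact pull_eval X i q

theorem pull_atInfinity {N : ℕ} (X : ProjCompactification N) (v : Fin (N + 1) → ℂ)
    (h : X.AtInfinity v) : (pull X).AtInfinity v := by
  obtain ⟨h0, h1, h2⟩ := h
  refine ⟨h0, ?_, ?_⟩
  · refine closure_mono ?_ h1
    rintro w ⟨c, q, rfl⟩
    exact ⟨c, ap sg q, by rw [pull_lift, sg_sg]⟩
  · intro c q
    rw [pull_lift]
    exact h2 c _

theorem pull_tangent {N : ℕ} (X : ProjCompactification N) (i : Fin (N + 1))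
    (a : Fin (N + 1) → ℂ) : (pull X).tangentSpace i a ⊆ X.tangentSpace i a := by
  intro τ hτ g hg
  refine hτ g ?_
  intro q hq
  rw [pull_eval] at hq
  rw [pull_lift]
  exact hg _ hq

theorem pull_attracting {N : ℕ} (X : ProjCompactification N) (v : Fin (N + 1) → ℂ)
    (n : ℕ) (h : IsAttracting X (iter T3.finvmap n) v) :
    IsAttracting (pull X) (iter T3.fmap n) v := by
  obtain ⟨i, Φ, hvi, han, hfix, hev, hm⟩ := h
  refine ⟨i, Φ, hvi, han, hfix, ?_, fun τ hτ => hm τ (pull_tangent X i _ hτ)⟩
  filter_upwards [hev] with w hw q hq hqw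
  rw [pull_eval] at hq
  rw [pull_lift] at hqw
  rw [pull_eval, pull_lift, sg_iter]
  exact hw (ap sg q) hq hqw

/-- no iterate `f^(-p)`, `p ≥ 1`, has an attracting fixed point at infinity -/
theorem no_attracting_iter_inv (p : ℕ) (hp : 1 ≤ p)
    {N : ℕ} (X : ProjCompactification N) (v : Fin (N + 1) → ℂ) (hinf : X.AtInfinity v) :
    ¬ IsAttracting X (iter T3.finvmap p) v := fun h =>
  no_attracting_iter p hp (pull X) v (pull_atInfinity X v hinf)
    (pull_attracting X v p h)

end Y712.SAF
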