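import Pool.Agent.Helper729.SAF.T1

set_option autoImplicit false

open MvPolynomial Filter Topology

namespace Y712.SAF

open Helper729.SAF

/-- pointwise convergence to `0` of linear maps on a finite-dimensional subspace is uniform -/
theorem exists_small {n : ℕ} (L : (Fin n → ℂ) →ₗ[ℂ] (Fin n → ℂ))
    (W : Submodule ℂ (Fin n → ℂ))
    (hL : ∀ τ ∈ W, Tendsto (fun m : ℕ => (L ^ m) τ) atTop (𝓝 0)) (ε : ℝ) (hε : 0 < ε) :
    ∀ᶠ m : ℕ in atTop, ∀ τ ∈ W, ‖(L ^ m) τ‖ ≤ ε * ‖τ‖ := by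
  classical
  let b := Module.finBasis ℂ W
  -- coordinates are bounded
  let co : W →L[ℂ] (Fin (Module.finrank ℂ W) → ℂ) :=
    LinearMap.toContinuousLinearMap (b.equivFun : W →ₗ[ℂ] (Fin (Module.finrank ℂ W) → ℂ))
  have h1 : Tendsto (fun m : ℕ => ‖co‖ * ∑ k, ‖(L ^ m) (b k : Fin n → ℂ)‖) atTop (𝓝 0) := by
    have h2 : Tendsto (fun m : ℕ => ∑ k, ‖(L ^ m) (b k : Fin n → ℂ)‖) atTop
        (𝓝 (∑ _k : Fin (Module.finrank ℂ W), (0 : ℝ))) := by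
      refine tendsto_finsetSum _ fun k _ => ?_
      have := (hL (b k : Fin n → ℂ) (b k).2).norm
      simpa using this
    have := h2.const_mul ‖co‖
    simpa using this
  filter_upwards [h1.eventually (gt_mem_nhds hε)] with m hm τ hτ
  have e : τ = ∑ k, (co ⟨τ, hτ⟩) k • (b k : Fin n → ℂ) := by
    have h := b.sum_equivFun ⟨τ, hτ⟩
    have h' := congrArg (fun x : W => (x : Fin n → ℂ)) h
    simp only [Submodule.coe_sum, Submodule.coe_smul] at h'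
    exact h'.symm
  calc ‖(L ^ m) τ‖ = ‖(L ^ m) (∑ k, (co ⟨τ, hτ⟩) k • (b k : Fin n → ℂ))‖ := by rw [← e]
    _ = ‖∑ k, (co ⟨τ, hτ⟩) k • (L ^ m) (b k : Fin n → ℂ)‖ := by
        rw [map_sum]; simp only [map_smul]
    _ ≤ ∑ k, ‖(co ⟨τ, hτ⟩) k • (L ^ m) (b k : Fin n → ℂ)‖ := norm_sum_le _ _
    _ ≤ ∑ k, (‖co‖ * ‖τ‖) * ‖(L ^ m) (b k : Fin n → ℂ)‖ := by
        refine Finset.sum_le_sum fun k _ => ?_
        rw [norm_smul]
        refine mul_le_mul_of_nonneg_right ?_ (norm_nonneg _)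
        exact (norm_le_pi_norm _ k).trans (co.le_opNorm _)
    _ = (‖co‖ * ∑ k, ‖(L ^ m) (b k : Fin n → ℂ)‖) * ‖τ‖ := by
        rw [← Finset.mul_sum]; ring
    _ ≤ ε * ‖τ‖ := mul_le_mul_of_nonneg_right hm.le (norm_nonneg _)

/-- a linear map which is small on the Zariski tangent space at `a` of `S` is small on the
differences `w - a`, `w ∈ S` near `a` -/
theorem tangent_small {n : ℕ} (S : Set (Fin n → ℂ)) (a : Fin n → ℂ) (ha : a ∈ closure S)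
    (A : (Fin n → ℂ) →ₗ[ℂ] (Fin n → ℂ)) (W : Submodule ℂ (Fin n → ℂ))
    (hW : ∀ τ : Fin n → ℂ, (∀ g : MvPolynomial (Fin n) ℂ, (∀ w ∈ S, eval w g = 0) →
      ∑ j, τ j * eval a (pderiv j g) = 0) → τ ∈ W)
    (ε : ℝ) (hε : 0 < ε) (hA : ∀ τ ∈ W, ‖A τ‖ ≤ ε * ‖τ‖) :
    ∃ r : ℝ, 0 < r ∧ ∀ w ∈ S, ‖w - a‖ ≤ r → ‖A (w - a)‖ ≤ 2 * ε * ‖w - a‖ := by
  obtain ⟨W', hW'⟩ := Submodule.exists_isCompl W
  -- projection onto `W'` along `W`
  obtain ⟨π, hπ0, hπ1⟩ : ∃ π : (Fin n → ℂ) →ₗ[ℂ] (Fin n → ℂ), (∀ τ ∈ W, π τ = 0) ∧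
      ∀ τ, τ - π τ ∈ W := by
    refine ⟨W'.projection W hW'.symm, ?_, ?_⟩
    · intro τ hτ
      rw [← Submodule.coe_projectionOnto_apply,
        (Submodule.projectionOnto_apply_eq_zero_iff hW'.symm).mpr hτ]
      rfl
    · intro τ
      rw [← Submodule.projectionOnto_apply_eq_zero_iff hW'.symm, map_sub,
        Submodule.projectionOnto_projection, sub_self]
  obtain ⟨C, r, hr, hC, hest⟩ := T1.tangent_estimate S a ha π
    (fun τ hτ => hπ0 τ (hW τ hτ))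
  let A' : (Fin n → ℂ) →L[ℂ] (Fin n → ℂ) := LinearMap.toContinuousLinearMap A
  have hA' : ∀ x, ‖A x‖ ≤ ‖A'‖ * ‖x‖ := fun x => A'.le_opNorm x
  set K : ℝ := (‖A'‖ + ε) * C with hK
  have hK0 : 0 ≤ K := by positivity
  refine ⟨min r (ε / (K + 1)), lt_min hr (by positivity), fun w hw hwr => ?_⟩
  have e1 := hest w hw (hwr.trans (min_le_left _ _))
  have e2 : K * ‖w - a‖ ≤ ε := by
    have h3 : ‖w - a‖ ≤ ε / (K + 1) := hwr.trans (min_le_right _ _)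
    have h4 : ‖w - a‖ * (K + 1) ≤ ε := by
      rwa [le_div_iff₀ (by positivity)] at h3
    nlinarith [norm_nonneg (w - a)]
  set x := w - a with hx
  have e3 : A x = A (x - π x) + A (π x) := by rw [← map_add]; congr 1; abel
  have e4 : ‖x - π x‖ ≤ ‖x‖ + ‖π x‖ := norm_sub_le _ _
  have e5 := hA _ (hπ1 x)
  have e6 := hA' (π x)
  have e7 : ‖A x‖ ≤ ‖A (x - π x)‖ + ‖A (π x)‖ := by rw [e3]; exact norm_add_le _ _
  have e8 : ε * ‖x - π x‖ ≤ ε * (‖x‖ + ‖π x‖) := mul_le_mul_of_nonneg_left e4 hε.le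
  have e9 : (‖A'‖ + ε) * ‖π x‖ ≤ (‖A'‖ + ε) * (C * ‖x‖ ^ 2) :=
    mul_le_mul_of_nonneg_left e1 (by positivity)
  have e10 : (‖A'‖ + ε) * (C * ‖x‖ ^ 2) = (K * ‖x‖) * ‖x‖ := by rw [hK]; ring
  have e11 : (K * ‖x‖) * ‖x‖ ≤ ε * ‖x‖ := mul_le_mul_of_nonneg_right e2 (norm_nonneg _)
  nlinarith

end Y712.SAF
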