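import Pool.Agent.Helper729.SAF.Main
import Pool.Agent.Y712.SAF.CoreP
import Pool.Agent.Y712.SAF.Tan
import Pool.Agent.Y712.SAF.Defs

set_option autoImplicit false

open MvPolynomial Filter Topology

namespace Y712.SAF

open Helper729.SAF
open SuperAttracting SuperAttracting.ProjCompactification

theorem eval_bind (p : MvPolynomial (Fin 3) ℂ) (r : Fin 3 → MvPolynomial (Fin 3) ℂ)
    (q : Fin 3 → ℂ) : eval q (bind₁ r p) = eval (fun i => eval q (r i)) p := by
  induction p using MvPolynomial.induction_on with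
  | C a => simp
  | add p q hp hq => simp [hp, hq]
  | mul_X p i hp => simp [hp]

theorem ap_comp (p r : PolyMap) (q : Fin 3 → ℂ) : ap (comp p r) q = ap p (ap r q) := by
  funext i
  exact eval_bind (p i) r q

theorem ap_iter (p : PolyMap) (n : ℕ) (q : Fin 3 → ℂ) : ap (iter p n) q = (ap p)^[n] q := by
  induction n with
  | zero => funext i; simp [ap, iter]
  | succ n ih => rw [Function.iterate_succ_apply', ← ih, iter, ap_comp]

theorem ap_iter_fmap (n : ℕ) (q : ℂ × ℂ × ℂ) :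
    ap (iter T3.fmap n) (to3 q) = to3 (F^[n] q) := by
  rw [ap_iter]
  induction n with
  | zero => rfl
  | succ n ih => rw [Function.iterate_succ_apply', ih, ap_fmap, Function.iterate_succ_apply']

/-- the Zariski tangent space as a submodule -/
noncomputable def tanW {N : ℕ} (X : ProjCompactification N) (i : Fin (N + 1))
    (a : Fin (N + 1) → ℂ) : Submodule ℂ (Fin (N + 1) → ℂ) where
  carrier := X.tangentSpace i a
  zero_mem' := by intro g _; simp
  add_mem' := by
    intro τ τ' h h' g hg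
    have h1 := h g hg
    have h2 := h' g hg
    simp only [Pi.add_apply, add_mul, Finset.sum_add_distrib, h1, h2, add_zero]
  smul_mem' := by
    intro c τ h g hg
    have h1 := h g hg
    simp only [Pi.smul_apply, smul_eq_mul, mul_assoc, ← Finset.mul_sum, h1, mul_zero]

/-- no iterate `f^p`, `p ≥ 1`, has an attracting fixed point at infinity (adapted from
`Helper729.SAF.no_superattracting`, the super-attracting case with `p = 1`) -/
theorem no_attracting_iter (p : ℕ) (hp : 1 ≤ p)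
    {N : ℕ} (X : ProjCompactification N) (v : Fin (N + 1) → ℂ) (hinf : X.AtInfinity v) :
    ¬ IsAttracting X (iter T3.fmap p) v := by
  rintro ⟨i, Φ, hvi, han, hfix, hev, hm⟩
  set a : Fin (N + 1) → ℂ := chart i v with ha
  obtain ⟨hv0, hvcl, hvnot⟩ := hinf
  -- no common zero
  have hR : ∀ q : ℂ × ℂ × ℂ, ∃ j, evq (RR X i a j) q ≠ 0 := by
    intro q
    by_contra hcon
    push Not at hcon
    have h1 : ∀ j, eval (to3 q) (X.P j) = a j * eval (to3 q) (X.P i) := by
      intro j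
      have := hcon j
      rw [evq_eq] at this
      simp only [RR, map_sub, map_mul, eval_C] at this
      linear_combination this
    by_cases hz : eval (to3 q) (X.P i) = 0
    · obtain ⟨j, hj⟩ := X.base_point_free (to3 q)
      exact hj (by rw [h1 j, hz, mul_zero])
    · refine hvnot (v i / eval (to3 q) (X.P i)) (to3 q) ?_
      ext j
      simp only [Pi.smul_apply, smul_eq_mul, ProjCompactification.lift]
      rw [h1 j, ha, chart_apply]
      field_simp
  -- approximation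
  have h1 : ∀ δ : ℝ, 0 < δ → ∃ q, Near (X.P i) (RR X i a) δ q := by
    intro δ hδ
    have hcont : ContinuousAt (fun w : Fin (N + 1) → ℂ => chart i w) v := by
      unfold ProjCompactification.chart
      exact ((continuousAt_apply i v).inv₀ hvi).smul continuousAt_id
    have hne : ∀ᶠ w in 𝓝 v, w i ≠ 0 := (continuousAt_apply i v).eventually_ne hvi
    have hnear : ∀ᶠ w in 𝓝 v, dist (chart i w) (chart i v) < δ :=
      hcont.eventually (Metric.ball_mem_nhds _ hδ)
    have hfr := mem_closure_iff_frequently.mp hvcl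
    obtain ⟨w, ⟨c, p', rfl⟩, hw1, hw2⟩ := (hfr.and_eventually (hne.and hnear)).exists
    obtain ⟨q, rfl⟩ := to3_surj p'
    have hc : c ≠ 0 := by
      rintro rfl
      exact hw1 (by simp)
    have hPi : eval (to3 q) (X.P i) ≠ 0 := by
      intro h
      apply hw1
      simp [ProjCompactification.lift, h]
    refine ⟨q, (near_iff X i a δ hδ.le q).mpr ⟨hPi, ?_⟩⟩
    rw [chart_smul i _ c hc, dist_eq_norm] at hw2
    exact hw2.le
  -- the local dynamics
  obtain ⟨δ2, hδ2, hdyn⟩ := Metric.eventually_nhds_iff.mp hev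
  have hdyn' : ∀ q : ℂ × ℂ × ℂ, eval (to3 q) (X.P i) ≠ 0 →
      ‖chart i (X.lift (to3 q)) - a‖ < δ2 →
      eval (to3 (F^[p] q)) (X.P i) ≠ 0 ∧
        chart i (X.lift (to3 (F^[p] q))) = Φ (chart i (X.lift (to3 q))) := by
    intro q hq hn
    have := hdyn (y := chart i (X.lift (to3 q))) (by rw [dist_eq_norm]; exact hn) (to3 q) hq rfl
    rw [ap_iter_fmap] at this
    exact this
  have h2 : ∀ ε : ℝ, 0 < ε → ∃ δ : ℝ, 0 < δ ∧ ∀ q, Near (X.P i) (RR X i a) δ q →
      Near (X.P i) (RR X i a) ε (F^[p] q) := by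
    intro ε hε
    have hc : ContinuousAt Φ a := han.continuousAt
    obtain ⟨δ1, hδ1, hc1⟩ := Metric.continuousAt_iff.mp hc ε hε
    refine ⟨min δ1 δ2 / 2, by positivity, fun q hq => ?_⟩
    have hpos : 0 < min δ1 δ2 := lt_min hδ1 hδ2
    rw [near_iff X i a _ (by positivity)] at hq
    obtain ⟨hq1, hq2⟩ := hq
    have hlt : ‖chart i (X.lift (to3 q)) - a‖ < min δ1 δ2 := by linarith
    obtain ⟨hF1, hF2⟩ := hdyn' q hq1 (hlt.trans_le (min_le_right _ _))
    rw [near_iff X i a _ hε.le]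
    refine ⟨hF1, ?_⟩
    rw [hF2]
    have := hc1 (x := chart i (X.lift (to3 q)))
      (by rw [dist_eq_norm]; exact hlt.trans_le (min_le_left _ _))
    rw [dist_eq_norm, hfix] at this
    exact this.le
  have hiter : ∀ T : ℕ, ∃ r : ℝ, 0 < r ∧ ∀ q, Near (X.P i) (RR X i a) r q →
      eval (to3 ((F^[p])^[T] q)) (X.P i) ≠ 0 ∧
        chart i (X.lift (to3 ((F^[p])^[T] q))) = Φ^[T] (chart i (X.lift (to3 q))) := by
    intro T
    induction T with
    | zero => exact ⟨1, one_pos, fun q hq => ⟨hq.1, rfl⟩⟩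
    | succ T ih =>
      obtain ⟨r1, hr1, h⟩ := ih
      obtain ⟨r2, hr2, hit⟩ := near_iterate_iterate p h2 T (δ2 / 2) (by positivity)
      refine ⟨min r1 r2, lt_min hr1 hr2, fun q hq => ?_⟩
      obtain ⟨hA, hB⟩ := h q (near_mono (min_le_left _ _) hq)
      have hC := hit q (near_mono (min_le_right _ _) hq)
      rw [near_iff X i a _ (by positivity)] at hC
      obtain ⟨hD1, hD2⟩ := hdyn' ((F^[p])^[T] q) hC.1 (by linarith [hC.2])
      rw [Function.iterate_succ_apply', Function.iterate_succ_apply']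
      exact ⟨hD1, by rw [hD2, hB]⟩
  -- second order estimates
  set S : Set (Fin (N + 1) → ℂ) :=
    {w | ∃ q : Fin 3 → ℂ, eval q (X.P i) ≠ 0 ∧ w = chart i (X.lift q)} with hS
  have haS : a ∈ closure S := by
    rw [Metric.mem_closure_iff]
    intro ε hε
    obtain ⟨q, hq⟩ := h1 (ε / 2) (by positivity)
    rw [near_iff X i a _ (by positivity)] at hq
    refine ⟨_, ⟨to3 q, hq.1, rfl⟩, ?_⟩
    rw [dist_comm, dist_eq_norm]
    linarith [hq.2]
  set L : (Fin (N + 1) → ℂ) →ₗ[ℂ] (Fin (N + 1) → ℂ) :=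
    ((fderiv ℂ Φ a : (Fin (N + 1) → ℂ) →L[ℂ] (Fin (N + 1) → ℂ)) :
      (Fin (N + 1) → ℂ) →ₗ[ℂ] (Fin (N + 1) → ℂ)) with hL
  have hLpow : ∀ (m : ℕ) (τ : Fin (N + 1) → ℂ), (L ^ m) τ = (fderiv ℂ Φ a)^[m] τ := by
    intro m τ
    rw [Module.End.pow_apply]
    rfl
  have hsm := exists_small L (tanW X i a) (fun τ hτ => by
    simp only [hLpow]
    exact hm τ hτ) (1 / 8) (by norm_num)
  obtain ⟨m, hm1, hm2⟩ := (hsm.and (eventually_ge_atTop 1)).exists
  obtain ⟨r1, hr1, hest1⟩ := tangent_small S a haS (L ^ m) (tanW X i a) (by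
      intro τ hτ g hg
      refine hτ g ?_
      rintro w ⟨q, hq, rfl⟩
      exact hg q hq) (1 / 8) (by norm_num) hm1
  obtain ⟨C2, r2, hr2, hC2, hest2⟩ := T2.iterate_second_order Φ a han hfix m
  obtain ⟨r3, hr3, hest3⟩ := hiter m
  refine core_iterate p hp (X.P i) (RR X i a) hR h1 h2
    ⟨p * m, min (min (min r1 r2) r3) (1 / (4 * (C2 + 1))), Nat.mul_pos hp hm2,
      lt_min (lt_min (lt_min hr1 hr2) hr3) (by positivity), ?_⟩
  intro q δ hδ0 hδ hq
  rw [Function.iterate_mul]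
  have hδ' : δ ≤ min (min r1 r2) r3 := hδ.trans (min_le_left _ _)
  have hδ4 : δ ≤ 1 / (4 * (C2 + 1)) := hδ.trans (min_le_right _ _)
  obtain ⟨hA, hB⟩ := hest3 q (near_mono (hδ'.trans (min_le_right _ _)) hq)
  have hq' := hq
  rw [near_iff X i a _ hδ0] at hq'
  set w := chart i (X.lift (to3 q)) with hw
  have hwS : w ∈ S := ⟨to3 q, hq'.1, rfl⟩
  have hwr1 : ‖w - a‖ ≤ r1 :=
    hq'.2.trans (hδ'.trans ((min_le_left _ _).trans (min_le_left _ _)))
  have hwr2 : ‖w - a‖ ≤ r2 :=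
    hq'.2.trans (hδ'.trans ((min_le_left _ _).trans (min_le_right _ _)))
  have e1 := hest1 w hwS hwr1
  have e2 := hest2 w hwr2
  rw [hLpow] at e1
  rw [near_iff X i a _ (by positivity)]
  refine ⟨hA, ?_⟩
  rw [hB]
  have e3 : Φ^[m] w - a = (Φ^[m] w - a - (fderiv ℂ Φ a)^[m] (w - a)) +
      (fderiv ℂ Φ a)^[m] (w - a) := by abel
  have e4 : C2 * ‖w - a‖ ≤ 1 / 4 := by
    have h5 : ‖w - a‖ ≤ 1 / (4 * (C2 + 1)) := hq'.2.trans hδ4
    rw [le_div_iff₀ (by positivity)] at h5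
    nlinarith [norm_nonneg (w - a)]
  calc ‖Φ^[m] w - a‖ = ‖(Φ^[m] w - a - (fderiv ℂ Φ a)^[m] (w - a)) +
      (fderiv ℂ Φ a)^[m] (w - a)‖ := by rw [← e3]
    _ ≤ ‖Φ^[m] w - a - (fderiv ℂ Φ a)^[m] (w - a)‖ +
        ‖(fderiv ℂ Φ a)^[m] (w - a)‖ := norm_add_le _ _
    _ ≤ C2 * ‖w - a‖ ^ 2 + 2 * (1 / 8) * ‖w - a‖ := add_le_add e2 e1
    _ = (C2 * ‖w - a‖) * ‖w - a‖ + 1 / 4 * ‖w - a‖ := by ring
    _ ≤ 1 / 4 * ‖w - a‖ + 1 / 4 * ‖w - a‖ := by
        gcongr
    _ = 1 / 2 * ‖w - a‖ := by ring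
    _ ≤ 1 / 2 * δ := by
        have := hq'.2
        linarith

end Y712.SAF
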