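import Pool.Agent.Y712.SAF.Inv

set_option autoImplicit false

open MvPolynomial Filter Topology

namespace Y712.SAF

open Helper729.SAF
open SuperAttracting SuperAttracting.ProjCompactification

/-- no orbit in `ℂ³` of `f^p`, `p ≥ 1`, converges geometrically to a fixed point at infinity at
which `f^p` is continuous -/
theorem no_orbit_iter (p : ℕ) (hp : 1 ≤ p)
    {N : ℕ} (X : ProjCompactification N) (v : Fin (N + 1) → ℂ) (hinf : X.AtInfinity v) :
    ¬ AttractsAnOrbit X (iter T3.fmap p) v := by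
  rintro ⟨i, hvi, hcont, qs, Cc, ρ, hρ0, hρ1, horb⟩
  set a : Fin (N + 1) → ℂ := chart i v with ha
  obtain ⟨hv0, hvcl, hvnot⟩ := hinf
  -- no common zero
  have hR : ∀ q : ℂ × ℂ × ℂ, ∃ j, evq (RR X i a j) q ≠ 0 := by
    intro q
    by_contra hcon
    push Not at hcon
    have h1 : ∀ j, eval (to3 q) (X.P j) = a j * eval (to3 q) (X.P i) := by
      intro j
      have := hcon j
      rw [evq_eq] at this
      simp only [RR, map_sub, map_mul, eval_C] at this
      linear_combination this
    by_cases hz : eval (to3 q) (X.P i) = 0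
    · obtain ⟨j, hj⟩ := X.base_point_free (to3 q)
      exact hj (by rw [h1 j, hz, mul_zero])
    · refine hvnot (v i / eval (to3 q) (X.P i)) (to3 q) ?_
      ext j
      simp only [Pi.smul_apply, smul_eq_mul, ProjCompactification.lift]
      rw [h1 j, ha, chart_apply]
      field_simp
  -- approximation
  have h1 : ∀ δ : ℝ, 0 < δ → ∃ q, Near (X.P i) (RR X i a) δ q := by
    intro δ hδ
    have hcont : ContinuousAt (fun w : Fin (N + 1) → ℂ => chart i w) v := by
      unfold ProjCompactification.chart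
      exact ((continuousAt_apply i v).inv₀ hvi).smul continuousAt_id
    have hne : ∀ᶠ w in 𝓝 v, w i ≠ 0 := (continuousAt_apply i v).eventually_ne hvi
    have hnear : ∀ᶠ w in 𝓝 v, dist (chart i w) (chart i v) < δ :=
      hcont.eventually (Metric.ball_mem_nhds _ hδ)
    have hfr := mem_closure_iff_frequently.mp hvcl
    obtain ⟨w, ⟨c, p', rfl⟩, hw1, hw2⟩ := (hfr.and_eventually (hne.and hnear)).exists
    obtain ⟨q, rfl⟩ := to3_surj p'
    have hc : c ≠ 0 := by
      rintro rfl
      exact hw1 (by simp)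
    have hPi : eval (to3 q) (X.P i) ≠ 0 := by
      intro h
      apply hw1
      simp [ProjCompactification.lift, h]
    refine ⟨q, (near_iff X i a δ hδ.le q).mpr ⟨hPi, ?_⟩⟩
    rw [chart_smul i _ c hc, dist_eq_norm] at hw2
    exact hw2.le
  have h2 : ∀ ε : ℝ, 0 < ε → ∃ δ : ℝ, 0 < δ ∧ ∀ q, Near (X.P i) (RR X i a) δ q →
      Near (X.P i) (RR X i a) ε (F^[p] q) := by
    intro ε hε
    obtain ⟨δ, hδ, h⟩ := hcont ε hε
    refine ⟨δ, hδ, fun q hq => ?_⟩
    rw [near_iff X i a _ hδ.le] at hq
    rw [near_iff X i a _ hε.le, ← ap_iter_fmap]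
    exact h (to3 q) hq.1 hq.2
  obtain ⟨q, rfl⟩ := to3_surj qs
  have horb' : ∀ n : ℕ, eval (to3 (F^[p * n] q)) (X.P i) ≠ 0 ∧
      ‖chart i (X.lift (to3 (F^[p * n] q))) - a‖ ≤ Cc * ρ ^ n := by
    intro n
    have e : (ap (iter T3.fmap p))^[n] (to3 q) = to3 (F^[p * n] q) := by
      rw [Function.iterate_mul]
      induction n with
      | zero => rfl
      | succ n ih =>
        rw [Function.iterate_succ_apply', ih, ap_iter_fmap, Function.iterate_succ_apply']
    rw [← e]
    exact horb n
  -- choose `T` with `ρ^T ≤ 1/2` and `n0` with `C ρ^n0 ≤ 1`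
  have hlim := tendsto_pow_atTop_nhds_zero_of_lt_one hρ0 hρ1
  obtain ⟨T, hT1, hT2⟩ := ((hlim.eventually (gt_mem_nhds (show (0 : ℝ) < 1 / 2 by norm_num))).and
    (eventually_ge_atTop 1)).exists
  have hlim2 : Tendsto (fun n : ℕ => Cc * ρ ^ n) atTop (𝓝 0) := by
    simpa using hlim.const_mul Cc
  obtain ⟨n0, hn0, hn0'⟩ := ((hlim2.eventually (gt_mem_nhds (show (0 : ℝ) < 1 by norm_num))).and
    (eventually_ge_atTop 1)).exists
  refine core_orbit p hp (X.P i) (RR X i a) hR h1 h2 ⟨p * T, F^[p * n0] q, Nat.mul_pos hp hT2, ?_⟩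
  intro j
  rw [near_iff X i a _ (by positivity), ← Function.iterate_add_apply]
  have e : p * T * j + p * n0 = p * (n0 + T * j) := by ring
  rw [e]
  refine ⟨(horb' _).1, (horb' _).2.trans ?_⟩
  rw [pow_add, pow_mul, ← mul_assoc]
  have h5 : (ρ ^ T) ^ j ≤ (1 / 2 : ℝ) ^ j := pow_le_pow_left₀ (by positivity) hT1.le j
  calc Cc * ρ ^ n0 * (ρ ^ T) ^ j ≤ 1 * (ρ ^ T) ^ j :=
        mul_le_mul_of_nonneg_right hn0.le (by positivity)
    _ = (ρ ^ T) ^ j := one_mul _
    _ ≤ _ := h5

theorem pull_orbit {N : ℕ} (X : ProjCompactification N) (v : Fin (N + 1) → ℂ)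
    (n : ℕ) (h : AttractsAnOrbit X (iter T3.finvmap n) v) :
    AttractsAnOrbit (pull X) (iter T3.fmap n) v := by
  obtain ⟨i, hvi, hcont, q, C, ρ, hρ0, hρ1, horb⟩ := h
  refine ⟨i, hvi, ?_, ap sg q, C, ρ, hρ0, hρ1, ?_⟩
  · intro ε hε
    obtain ⟨δ, hδ, h⟩ := hcont ε hε
    refine ⟨δ, hδ, fun q hq hd => ?_⟩
    rw [pull_eval] at hq
    rw [pull_lift] at hd
    rw [pull_eval, pull_lift, sg_iter]
    exact h _ hq hd
  · intro m
    have e : ap sg ((ap (iter T3.fmap n))^[m] (ap sg q)) = (ap (iter T3.finvmap n))^[m] q := by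
      induction m with
      | zero => exact sg_sg q
      | succ m ih => rw [Function.iterate_succ_apply', sg_iter, ih, Function.iterate_succ_apply']
    rw [pull_eval, pull_lift, e]
    exact horb m

theorem no_orbit_iter_inv (p : ℕ) (hp : 1 ≤ p)
    {N : ℕ} (X : ProjCompactification N) (v : Fin (N + 1) → ℂ) (hinf : X.AtInfinity v) :
    ¬ AttractsAnOrbit X (iter T3.finvmap p) v := fun h =>
  no_orbit_iter p hp (pull X) v (pull_atInfinity X v hinf) (pull_orbit X v p h)

/-- two polynomial maps with the same values are equal -/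
theorem ap_ext (p r : PolyMap) (h : ∀ q, ap p q = ap r q) : p = r := by
  funext i
  exact MvPolynomial.funext fun q => congrFun (h q) i

theorem iter_iter (p : PolyMap) (k n : ℕ) : iter (iter p k) n = iter p (k * n) := by
  apply ap_ext
  intro q
  rw [ap_iter, ap_iter, Function.iterate_mul]
  congr 1
  congr 1
  funext q'
  exact ap_iter p k q'

/-- the dynamical degree of the `k`-th iterate -/
theorem dynDegree_iter (p : PolyMap) (l : ℝ) (h : HasDynamicalDegree p l) (k : ℕ) (hk : 1 ≤ k) :
    HasDynamicalDegree (iter p k) (l ^ k) := by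
  unfold HasDynamicalDegree at *
  have hsub : Tendsto (fun n : ℕ => k * n) atTop atTop :=
    tendsto_id.const_mul_atTop' (by omega)
  have h1 := (h.comp hsub).pow k
  refine h1.congr' ?_
  filter_upwards [eventually_ge_atTop 1] with n hn
  simp only [Function.comp_apply]
  rw [iter_iter, ← Real.rpow_natCast, ← Real.rpow_mul (by positivity)]
  congr 1
  have hn0 : (n : ℝ) ≠ 0 := by positivity
  have hk0 : (k : ℝ) ≠ 0 := by positivity
  push_cast
  field_simp

/-- the `k`-th power of a polynomial automorphism of `ℂ³` -/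
noncomputable def powAut (f : PolyAut) (k : ℕ) : PolyAut where
  f := iter f.f k
  finv := iter f.finv k
  left_inv := by
    intro q
    rw [ap_iter, ap_iter]
    exact Function.LeftInverse.iterate (fun q => f.left_inv q) k q
  right_inv := by
    intro q
    rw [ap_iter, ap_iter]
    exact Function.LeftInverse.iterate (fun q => f.right_inv q) k q

end Y712.SAF
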